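import Pool.Agent.MP_6a4325_al.H62.Spec2

/-!
Row PCA: subgroups and quotients of polycyclic groups, with the count of infinite factors.
-/

set_option autoImplicit false

namespace Pool.Agent.MP_6a4325_al.H28

open Pool.Agent.MP_6a4325_al.H62

variable {G G' : Type} [Group G] [Group G']

theorem fin_of_cover {ι : Type} [Finite ι] {K L : Subgroup G} (g : ι → G)
    (h : ∀ y ∈ L, ∃ i, (g i)⁻¹ * y ∈ K) : K.relIndex L ≠ 0 := by
  choose c hc using fun q : L ⧸ K.subgroupOf L => h q.out q.out.2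
  have : Finite (L ⧸ K.subgroupOf L) := by
    refine Finite.of_injective c fun q q' e => ?_
    rw [← q.out_eq', ← q'.out_eq']
    refine QuotientGroup.eq.2 ?_
    have h1 := K.mul_mem (K.inv_mem (hc q)) (e ▸ hc q')
    rw [Subgroup.mem_subgroupOf]
    simpa [mul_assoc] using h1
  exact Subgroup.index_ne_zero_of_finite

theorem cover_of_fin {K L : Subgroup G} (h : K.relIndex L ≠ 0) :
    ∃ (ι : Type) (_ : Finite ι) (g : ι → G), ∀ y ∈ L, ∃ i, (g i)⁻¹ * y ∈ K := by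
  refine ⟨L ⧸ K.subgroupOf L, Nat.finite_of_card_ne_zero h, fun q => (q.out : L), fun y hy => ?_⟩
  refine ⟨QuotientGroup.mk ⟨y, hy⟩, ?_⟩
  have h1 := QuotientGroup.eq.1
    (QuotientGroup.out_eq' (QuotientGroup.mk (s := K.subgroupOf L) ⟨y, hy⟩))
  exact Subgroup.mem_subgroupOf.1 h1

theorem relIndex_map {K L : Subgroup G} (h : K.relIndex L ≠ 0) (f : G →* G') :
    (K.map f).relIndex (L.map f) ≠ 0 := by
  obtain ⟨ι, _, g, hg⟩ := cover_of_fin h
  refine fin_of_cover (fun i => f (g i)) ?_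
  rintro _ ⟨y, hy, rfl⟩
  obtain ⟨i, hi⟩ := hg y hy
  exact ⟨i, _, hi, by simp⟩

theorem cyc_hom {H K : Subgroup G} (h : Cyc H K) :
    ∃ (Q : Type) (_ : Group Q) (φ : K →* Q) (t : K), (∀ y, ∃ b : ℤ, φ y = φ t ^ b) ∧
      ∀ y : K, φ y = 1 ↔ (y : G) ∈ H := by
  obtain ⟨hle, hn, t, ht, e⟩ := h
  have : (H.subgroupOf K).Normal := ⟨fun b hb k => hn k k.2 b hb⟩
  let φ := QuotientGroup.mk' (H.subgroupOf K)
  have hk : ∀ y : K, φ y = 1 ↔ (y : G) ∈ H := fun y => QuotientGroup.eq_one_iff y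
  refine ⟨_, inferInstance, φ, ⟨t, ht⟩, fun y => ?_, hk⟩
  let S : Subgroup G := ((Subgroup.zpowers (φ ⟨t, ht⟩)).comap φ).map K.subtype
  have h1 : K ≤ S := by
    conv_lhs => rw [e]
    refine sup_le (fun x hx => ⟨⟨x, hle hx⟩, ?_, rfl⟩) ?_
    · show φ _ ∈ Subgroup.zpowers _
      rw [(hk ⟨x, hle hx⟩).2 hx]
      exact one_mem _
    · exact (Subgroup.zpowers_le).2 ⟨⟨t, ht⟩, Subgroup.mem_zpowers _, rfl⟩
  obtain ⟨z, ⟨b, hb⟩, hz⟩ := h1 y.2
  exact ⟨b, by rw [← Subtype.ext hz]; exact hb.symm⟩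

theorem cyc_of_hom {H K : Subgroup G} {Q : Type} [Group Q] (hle : H ≤ K) (φ : K →* Q) (q : Q)
    (hq : ∀ y, ∃ b : ℤ, φ y = q ^ b) (hk : ∀ y : K, φ y = 1 ↔ (y : G) ∈ H) : Cyc H K := by
  have h1 : φ.range ≤ Subgroup.zpowers q := by
    rintro _ ⟨y, rfl⟩
    obtain ⟨b, hb⟩ := hq y
    exact ⟨b, hb.symm⟩
  have : IsCyclic φ.range := Subgroup.isCyclic_of_le h1
  obtain ⟨⟨_, t, rfl⟩, ht⟩ := IsCyclic.exists_generator (α := φ.range)
  refine ⟨hle, fun k hk' x hx => ?_, t, t.2, le_antisymm (fun x hx => ?_)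
    (sup_le hle ((Subgroup.zpowers_le).2 t.2))⟩
  · refine (hk (⟨k, hk'⟩ * ⟨x, hle hx⟩ * ⟨k, hk'⟩⁻¹)).1 ?_
    rw [map_mul, map_mul, (hk ⟨x, hle hx⟩).2 hx, mul_one, ← map_mul, mul_inv_cancel, map_one]
  · obtain ⟨b, hb⟩ := ht ⟨φ ⟨x, hx⟩, _, rfl⟩
    have h2 : φ t ^ b = φ ⟨x, hx⟩ := congrArg Subtype.val hb
    have h3 := (hk (⟨x, hx⟩ * (t ^ b)⁻¹)).1 (by rw [map_mul, map_inv, map_zpow, h2, mul_inv_cancel])
    have h4 : x = (x * ((t : G) ^ b)⁻¹) * (t : G) ^ b := by simp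
    rw [h4]
    exact Subgroup.mul_mem_sup h3 ⟨b, rfl⟩

theorem cyc_comap {H K : Subgroup G} (h : Cyc H K) (f : G' →* G) :
    Cyc (H.comap f) (K.comap f) := by
  obtain ⟨Q, _, φ, t, h1, h2⟩ := cyc_hom h
  exact cyc_of_hom (Subgroup.comap_mono h.1) (φ.comp (f.subgroupComap K)) (φ t)
    (fun y => h1 _) fun y => h2 _

theorem cyc_map {H K : Subgroup G} (h : Cyc H K) (f : G →* G') : Cyc (H.map f) (K.map f) := by
  obtain ⟨hle, hn, t, ht, e⟩ := h
  refine ⟨Subgroup.map_mono hle, ?_, f t, ⟨t, ht, rfl⟩, ?_⟩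
  · rintro _ ⟨k, hk, rfl⟩ _ ⟨x, hx, rfl⟩
    exact ⟨_, hn k hk x hx, by simp⟩
  · conv_lhs => rw [e]
    rw [Subgroup.map_sup, MonoidHom.map_zpowers]

theorem key {K L L' : Subgroup G} (hc : Cyc L L') (hK : K.relIndex L ≠ 0) {x : G} (hx : x ∈ L')
    (hxK : x ∈ K) (hxL : x ∉ L) : K.relIndex L' ≠ 0 := by
  obtain ⟨Q, _, φ, t, h1, h2⟩ := cyc_hom hc
  obtain ⟨ι, _, g, hg⟩ := cover_of_fin hK
  obtain ⟨a, ha⟩ := h1 ⟨x, hx⟩
  have a0 : a ≠ 0 := fun e => hxL ((h2 ⟨x, hx⟩).1 (by rw [ha, e, zpow_zero]))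
  refine fin_of_cover (ι := Finset.Ico (0 : ℤ) |a| × ι)
    (fun r => (t : G) ^ (r.1 : ℤ) * g r.2) fun y hy => ?_
  obtain ⟨b, hb⟩ := h1 ⟨y, hy⟩
  have h3 := (h2 ((t ^ (b % a))⁻¹ * ⟨y, hy⟩ * (⟨x, hx⟩ ^ (b / a))⁻¹)).1 (by
    rw [map_mul, map_mul, map_inv, map_inv, map_zpow, map_zpow, ha, hb, ← zpow_mul, ← zpow_neg,
      ← zpow_neg, ← zpow_add, ← zpow_add]
    have := Int.emod_add_mul_ediv b a
    rw [show -(b % a) + b + -(a * (b / a)) = 0 by omega, zpow_zero])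
  obtain ⟨i, hi⟩ := hg _ h3
  refine ⟨⟨⟨b % a, Finset.mem_Ico.2 ⟨Int.emod_nonneg b a0, Int.emod_lt_abs b a0⟩⟩, i⟩, ?_⟩
  have h4 := K.mul_mem hi (K.zpow_mem hxK (b / a))
  simpa [mul_assoc] using h4

theorem pcr_comap {n : ℕ} {H K : Subgroup G} (h : PCr n H K) (f : G' →* G) :
    PCr n (H.comap f) (K.comap f) := by
  induction h with
  | refl n H => exact PCr.refl _ _
  | fin _ hc hi ih => exact ih.fin (cyc_comap hc f) (Subgroup.relIndex_comap_ne_zero f hi)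
  | inf _ hc ih => exact ih.inf (cyc_comap hc f)

theorem pcr_map {n : ℕ} {H K : Subgroup G} (h : PCr n H K) (f : G →* G') :
    PCr n (H.map f) (K.map f) := by
  induction h with
  | refl n H => exact PCr.refl _ _
  | fin _ hc hi ih => exact ih.fin (cyc_map hc f) (relIndex_map hi f)
  | inf _ hc ih => exact ih.inf (cyc_map hc f)

theorem sub_aux {n : ℕ} {H L : Subgroup G} (h : PCr n H L) (K : Subgroup G) (hH : H ≤ K) :
    K.relIndex L ≠ 0 ∨ ∃ m, m < n ∧ PCr m (H.comap K.subtype) (L.comap K.subtype) := by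
  induction h with
  | refl n H => exact Or.inl (by rw [Subgroup.relIndex_eq_one.2 hH]; exact one_ne_zero)
  | fin _ hc hi ih =>
    rcases ih hH with h1 | ⟨m, hm, h1⟩
    · exact Or.inl (Subgroup.relIndex_ne_zero_trans h1 hi)
    · exact Or.inr ⟨m, hm, h1.fin (cyc_comap hc _) (Subgroup.relIndex_comap_ne_zero _ hi)⟩
  | @inf n H L L' h0 hc ih =>
    rcases ih hH with h1 | ⟨m, hm, h1⟩
    · by_cases h2 : ∀ x ∈ L', x ∈ K → x ∈ L
      · refine Or.inr ⟨n, n.lt_succ_self, (pcr_comap h0 _).fin (cyc_comap hc _) ?_⟩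
        have e : (L.comap K.subtype).relIndex (L'.comap K.subtype) = 1 :=
          Subgroup.relIndex_eq_one.2 fun x hx => h2 x hx x.2
        rw [e]
        exact one_ne_zero
      · push Not at h2
        obtain ⟨x, hx, hxK, hxL⟩ := h2
        exact Or.inl (key hc h1 hx hxK hxL)
    · exact Or.inr ⟨m + 1, Nat.succ_lt_succ hm, h1.inf (cyc_comap hc _)⟩

theorem quot_aux {n : ℕ} {H L : Subgroup G} (h : PCr n H L) (f : G →* G')
    (hH : (⊥ : Subgroup G).relIndex (H ⊓ f.ker) ≠ 0) :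
    (⊥ : Subgroup G).relIndex (L ⊓ f.ker) ≠ 0 ∨ ∃ m, m < n ∧ PCr m (H.map f) (L.map f) := by
  induction h with
  | refl n H => exact Or.inl hH
  | fin _ hc hi ih =>
    rcases ih hH with h1 | ⟨m, hm, h1⟩
    · exact Or.inl (Subgroup.relIndex_ne_zero_trans h1 (Subgroup.relIndex_inter_ne_zero hi _))
    · exact Or.inr ⟨m, hm, h1.fin (cyc_map hc _) (relIndex_map hi _)⟩
  | @inf n H L L' h0 hc ih =>
    rcases ih hH with h1 | ⟨m, hm, h1⟩
    · by_cases h2 : ∀ x ∈ L', x ∈ f.ker → x ∈ L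
      · refine Or.inl ?_
        rwa [show L' ⊓ f.ker = L ⊓ f.ker from le_antisymm (fun x hx => ⟨h2 x hx.1 hx.2, hx.2⟩)
          (inf_le_inf_right _ hc.1)]
      · push Not at h2
        obtain ⟨x, hx, hxK, hxL⟩ := h2
        refine Or.inr ⟨n, n.lt_succ_self, (pcr_map h0 _).fin (cyc_map hc _) ?_⟩
        have h3 := relIndex_map (key (K := (L.map f).comap f) hc
          (by rw [Subgroup.relIndex_eq_one.2 (L.le_comap_map f)]; exact one_ne_zero) hx
          (by rw [Subgroup.mem_comap, (MonoidHom.mem_ker).1 hxK]; exact one_mem _) hxL) f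
        rwa [Subgroup.map_comap_eq_self (Subgroup.map_le_range f L)] at h3
    · exact Or.inr ⟨m + 1, Nat.succ_lt_succ hm, h1.inf (cyc_map hc _)⟩

theorem pc_quot {n : ℕ} (f : G →* G') (hf : Function.Surjective f) (h : PC n G) : PC n G' := by
  have h1 := pcr_map h f
  rwa [Subgroup.map_bot, Subgroup.map_top_of_surjective f hf] at h1

theorem pca : PCA where
  sub n G H _ _ f hf h := by
    have h1 := pcr_comap h f
    rwa [MonoidHom.comap_bot, (MonoidHom.ker_eq_bot_iff f).2 hf, Subgroup.comap_top] at h1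
  subInf n G _ K hK h := by
    rcases sub_aux h K bot_le with h1 | ⟨m, hm, h1⟩
    · exact absurd (by rwa [Subgroup.relIndex_top_right]) h1
    · refine ⟨m, hm, ?_⟩
      rwa [MonoidHom.comap_bot, Subgroup.ker_subtype, Subgroup.comap_top] at h1
  quot n G Q _ _ f hf h := pc_quot f hf h
  quotInf n G Q _ _ f hf hi h := by
    rcases quot_aux h f (by simp) with h1 | ⟨m, hm, h1⟩
    · rw [top_inf_eq, Subgroup.relIndex_bot_left] at h1
      exact absurd Nat.card_eq_zero_of_infinite h1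
    · refine ⟨m, hm, ?_⟩
      rwa [Subgroup.map_bot, Subgroup.map_top_of_surjective f hf] at h1
  rel n G _ A hA h := by
    have h1 := pcr_comap (pc_quot (QuotientGroup.mk' A) (QuotientGroup.mk'_surjective A) h)
      (QuotientGroup.mk' A)
    rwa [MonoidHom.comap_bot, QuotientGroup.ker_mk', Subgroup.comap_top] at h1

end Pool.Agent.MP_6a4325_al.H28
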